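import Pool.Agent.H31.StrongD

set_option autoImplicit false

namespace Pool.Agent.Results.MP_5f2357_gt.Neg

open Pool.Agent.H31.SD

theorem result : ∃ (Y : Type) (_ : TopologicalSpace Y), StrongD Y ∧
    ¬ StrongD {f : Bool → Y // Continuous f} :=
  ⟨Y, inferInstance, strong, not_strong⟩

end Pool.Agent.Results.MP_5f2357_gt.Neg
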